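import Mathlib
import Pool.Agent.Lib.helper22.LeeB

namespace Pool.Agent.Results.MP_46ffdd_an.Lee

open Finset Matrix Pool.Agent.Lib.helper22.LeeA Pool.Agent.Lib.helper22.LeeB
open scoped InnerProductSpace MatrixOrder ComplexOrder

/-- The Frobenius norm `(tr X* X)^(1/2)`. -/
noncomputable def frob {n : ℕ} (X : Matrix (Fin n) (Fin n) ℂ) : ℝ :=
  √((Xᴴ * X).trace.re)

/-- `|X| = (X* X)^(1/2)`, the positive semidefinite square root. -/
noncomputable def absM {n : ℕ} (X : Matrix (Fin n) (Fin n) ℂ) : Matrix (Fin n) (Fin n) ℂ :=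
  CFC.sqrt (Xᴴ * X)

variable {n : ℕ}

lemma absM_nonneg (X : Matrix (Fin n) (Fin n) ℂ) : 0 ≤ absM X := CFC.sqrt_nonneg _

lemma absM_herm (X : Matrix (Fin n) (Fin n) ℂ) : (absM X).IsHermitian :=
  (Matrix.nonneg_iff_posSemidef.mp (absM_nonneg X)).isHermitian

lemma absM_sq (X : Matrix (Fin n) (Fin n) ℂ) : absM X * absM X = Xᴴ * X :=
  CFC.sqrt_mul_sqrt_self _ (Matrix.nonneg_iff_posSemidef.mpr (posSemidef_conjTranspose_mul_self X))

lemma cfc_apply {P : Matrix (Fin n) (Fin n) ℂ} (hP : P.IsHermitian) (f : ℝ → ℝ) (i : Fin n) :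
    toEuclideanLin (cfc f P) (hP.eigenvectorBasis i) =
      (f (hP.eigenvalues i) : ℂ) • hP.eigenvectorBasis i := by
  rw [hP.cfc_eq, IsHermitian.cfc, Unitary.conjStarAlgAut_apply]
  ext j
  simp only [toLpLin_apply, ← mulVec_mulVec, hP.star_eigenvectorUnitary_mulVec,
    diagonal_mulVec_single, Function.comp_apply, mul_one]
  rw [show (Pi.single i (RCLike.ofReal (f (hP.eigenvalues i))) : Fin n → ℂ) =
    (f (hP.eigenvalues i) : ℂ) • (Pi.single i 1 : Fin n → ℂ) by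
      ext k; by_cases h : k = i <;> simp [h], mulVec_smul, hP.eigenvectorUnitary_mulVec]
  rfl

lemma herm_apply {P : Matrix (Fin n) (Fin n) ℂ} (hP : P.IsHermitian) (i : Fin n) :
    toEuclideanLin P (hP.eigenvectorBasis i) =
      (hP.eigenvalues i : ℂ) • hP.eigenvectorBasis i := by
  ext j
  simp only [toLpLin_apply, hP.mulVec_eigenvectorBasis]
  simp

lemma sd (X : Matrix (Fin n) (Fin n) ℂ) :
    SD (toEuclideanLin X) (absM_herm X).eigenvectorBasis (absM_herm X).eigenvalues := by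
  set u := (absM_herm X).eigenvectorBasis
  set a := (absM_herm X).eigenvalues
  have ha : ∀ i, 0 ≤ a i :=
    (Matrix.nonneg_iff_posSemidef.mp (absM_nonneg X)).eigenvalues_nonneg
  have key : ∀ i j, ⟪toEuclideanLin X (u i), toEuclideanLin X (u j)⟫_ℂ =
      ((a j : ℂ) * a j) * ⟪u i, u j⟫_ℂ := by
    intro i j
    rw [← LinearMap.adjoint_inner_right, ← toEuclideanLin_conjTranspose_eq_adjoint,
      ← LinearMap.comp_apply, ← toLpLin_mul, ← absM_sq, toLpLin_mul, LinearMap.comp_apply,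
      herm_apply (absM_herm X), map_smul, herm_apply (absM_herm X), smul_smul, inner_smul_right]
  refine ⟨ha, fun i => ?_, fun i j hij => ?_⟩
  · have := key i i
    rw [inner_self_eq_norm_sq_to_K, inner_self_eq_norm_sq_to_K, u.orthonormal.1 i] at this
    have h2 : ((‖toEuclideanLin X (u i)‖ ^ 2 : ℝ) : ℂ) = ((a i ^ 2 : ℝ) : ℂ) := by
      push_cast; simpa [sq] using this
    have h3 : ‖toEuclideanLin X (u i)‖ ^ 2 = a i ^ 2 := by exact_mod_cast h2
    exact (pow_left_inj₀ (norm_nonneg _) (ha i) two_ne_zero).mp h3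
  · rw [key, u.orthonormal.2 hij, mul_zero]

lemma frob_eq (X : Matrix (Fin n) (Fin n) ℂ)
    (u : OrthonormalBasis (Fin n) ℂ (EuclideanSpace ℂ (Fin n))) :
    frob X = √(∑ i, ‖toEuclideanLin X (u i)‖ ^ 2) := by
  rw [hs_eq _ (EuclideanSpace.basisFun (Fin n) ℂ) u, frob]
  congr 1
  simp only [trace, diag_apply, mul_apply, conjTranspose_apply, Complex.re_sum]
  refine sum_congr rfl fun i _ => ?_
  rw [EuclideanSpace.norm_sq_eq]
  refine sum_congr rfl fun j _ => ?_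
  simp [toLpLin_apply, Complex.sq_norm, Complex.normSq_apply]

theorem result (n : ℕ) (A B : Matrix (Fin n) (Fin n) ℂ) (f : ℝ → ℝ)
    (hf : ConcaveOn ℝ (Set.Ici 0) f) (h0 : ∀ x, 0 ≤ x → 0 ≤ f x) :
    frob (cfc f (absM (A + B))) ≤
      √((1 + √2) / 2) * frob (cfc f (absM A) + cfc f (absM B)) := by
  have hA := sd A
  have hB := sd B
  have hZ := sd (A + B)
  rw [map_add] at hZ
  have key := main hA hB hZ hf h0
  set u := (absM_herm A).eigenvectorBasis with hu
  set v := (absM_herm B).eigenvectorBasis with hv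
  set w := (absM_herm (A + B)).eigenvectorBasis with hw
  set a := (absM_herm A).eigenvalues
  set b := (absM_herm B).eigenvalues
  set z := (absM_herm (A + B)).eigenvalues
  rw [frob_eq _ w, frob_eq _ u, ← Real.sqrt_mul (by positivity)]
  refine Real.sqrt_le_sqrt ?_
  have nr : ∀ (c : ℝ) (x : EuclideanSpace ℂ (Fin n)), ‖x‖ = 1 → ‖(c : ℂ) • x‖ ^ 2 = c ^ 2 := by
    intro c x hx
    rw [norm_smul, hx, mul_one, Complex.norm_real, Real.norm_eq_abs, sq_abs]
  have e1 : ∑ i, ‖toEuclideanLin (cfc f (absM (A + B))) (w i)‖ ^ 2 = ∑ k, f (z k) ^ 2 :=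
    sum_congr rfl fun i _ => by
      rw [hw, cfc_apply (absM_herm (A + B)), nr _ _ (w.orthonormal.1 i)]
  set G := toEuclideanLin (cfc f (absM B)) with hG
  have hGv : ∀ j, G (v j) = (f (b j) : ℂ) • v j := fun j => cfc_apply (absM_herm B) f j
  have e2 : ∑ i, ‖G (u i)‖ ^ 2 = ∑ j, f (b j) ^ 2 := by
    rw [hs_eq G v u]
    exact sum_congr rfl fun j _ => by rw [hGv, nr _ _ (v.orthonormal.1 j)]
  have e3 : ∀ i, ‖toEuclideanLin (cfc f (absM A) + cfc f (absM B)) (u i)‖ ^ 2 =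
      f (a i) ^ 2 + ‖G (u i)‖ ^ 2 + 2 * ∑ j, ‖⟪v j, u i⟫_ℂ‖ ^ 2 * (f (a i) * f (b j)) := by
    intro i
    rw [map_add, LinearMap.add_apply, hu, cfc_apply (absM_herm A), @norm_add_sq ℂ,
      nr _ _ (u.orthonormal.1 i)]
    have : ⟪(f (a i) : ℂ) • u i, G (u i)⟫_ℂ =
        ((∑ j, ‖⟪v j, u i⟫_ℂ‖ ^ 2 * (f (a i) * f (b j)) : ℝ) : ℂ) := by
      rw [expand G v (u i), inner_sum]
      push_cast
      refine sum_congr rfl fun j _ => ?_
      rw [hGv, inner_smul_left, inner_smul_right, inner_smul_right, ← inner_conj_symm (u i),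
        ← Complex.mul_conj', Complex.conj_ofReal]
      ring
    have h2 : RCLike.re ⟪(f (a i) : ℂ) • u i, G (u i)⟫_ℂ =
        ∑ j, ‖⟪v j, u i⟫_ℂ‖ ^ 2 * (f (a i) * f (b j)) := by
      rw [this]; exact Complex.ofReal_re _
    rw [← h2]; ring
  rw [e1]
  simp_rw [e3]
  rw [sum_add_distrib, sum_add_distrib, e2, ← mul_sum]
  exact key

end Pool.Agent.Results.MP_46ffdd_an.Lee
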